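import Pool.Agent.W941.MG.Stm

/-!
# Project MG: from ordered partitions to set families
-/

set_option autoImplicit false

namespace Pool.Agent.W370.MG

open Pool.Agent.W941.MG

theorem fam : FamStmt := by
  classical
  intro K m r n I hK hm hD hr hn
  subst hn
  have hr' : r ≤ K + 1 := by omega
  obtain ⟨hBal, hDiag⟩ := hD
  set E : (Fin ((K + 1) * m) → Fin (K + 1)) → Fin ((K + 1) * m + r) → Fin (K + 1) :=
    fun y => Fin.append y (Fin.castLE hr') with hE
  set A : Fin (K + 1) → {f // f ∈ I} → Finset (Fin ((K + 1) * m + r)) :=
    fun j y => Finset.univ.filter (fun c => E y.1 c = j) with hA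
  set M : Fin (K + 1) → ℕ := fun j => m + (if j.val < r then 1 else 0) with hM
  have hex : ∀ j : Fin (K + 1), (∑ i : Fin r, if Fin.castLE hr' i = j then 1 else 0) =
      (if j.val < r then 1 else 0) := by
    intro j
    by_cases hj : j.val < r
    · rw [if_pos hj, Finset.sum_eq_single (⟨j.val, hj⟩ : Fin r)]
      · rw [if_pos]
        ext
        simp
      · intro b _ hb
        rw [if_neg]
        intro h
        apply hb
        ext
        have := congrArg Fin.val h
        simpa using this
      · intro h
        exact absurd (Finset.mem_univ _) h
    · rw [if_neg hj]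
      apply Finset.sum_eq_zero
      intro i _
      rw [if_neg]
      intro h
      apply hj
      rw [← h]
      simp
  have hcard : ∀ j y, (A j y).card = M j := by
    intro j y
    rw [hA, hM]
    simp only
    rw [Finset.card_filter, Fin.sum_univ_add]
    have h1 : (∑ i : Fin ((K + 1) * m), if E y.1 (Fin.castAdd r i) = j then 1 else 0) = m := by
      refine Eq.trans ?_ (hBal y.1 y.2 j)
      rw [Finset.card_filter]
      refine Finset.sum_congr rfl fun i _ => ?_
      rw [hE]
      simp only [Fin.append_left]
    have h2 : (∑ i : Fin r, if E y.1 (Fin.natAdd ((K + 1) * m) i) = j then 1 else 0) =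
        (if j.val < r then 1 else 0) := by
      rw [← hex j]
      refine Finset.sum_congr rfl fun i _ => ?_
      rw [hE]
      simp only [Fin.append_right]
    rw [h1, h2]
  have hsum : ∑ j, M j = (K + 1) * m + r := by
    rw [hM]
    simp only [Finset.sum_add_distrib, Finset.sum_const, Finset.card_univ, Fintype.card_fin,
      smul_eq_mul]
    congr 1
    have h1 : (∑ j : Fin (K + 1), if j.val < r then 1 else 0) =
        ∑ j : Fin (K + 1), ∑ i : Fin r, (if Fin.castLE hr' i = j then 1 else 0) :=
      Finset.sum_congr rfl fun j _ => (hex j).symm
    rw [h1, Finset.sum_comm]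
    simp
  refine ⟨{f // f ∈ I}, inferInstance, M, A, Fintype.card_coe I, hsum, ?_, hcard, ?_⟩
  · intro j
    rw [hM]
    by_cases hj : j.val < r
    · right
      simp [hj]
    · left
      simp [hj]
  intro x
  constructor
  · intro hdis
    have hun : (Finset.univ.biUnion fun j => A j (x j)) = Finset.univ := by
      apply Finset.eq_univ_of_card
      rw [Finset.card_biUnion (fun i _ j _ hij => hdis i j hij)]
      simp only [hcard, hsum, Fintype.card_fin]
    have hexc : ∀ c : Fin ((K + 1) * m), ∃ j, (x j).1 c = j := by
      intro c
      have h1 : Fin.castAdd r c ∈ Finset.univ.biUnion fun j => A j (x j) := by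
        rw [hun]
        exact Finset.mem_univ _
      rw [Finset.mem_biUnion] at h1
      obtain ⟨j, -, hj⟩ := h1
      rw [hA] at hj
      simp only [Finset.mem_filter, Finset.mem_univ, true_and] at hj
      rw [hE] at hj
      simp only [Fin.append_left] at hj
      exact ⟨j, hj⟩
    choose g hg using hexc
    have hun2 : ∀ c j, g c = j ↔ (x j).1 c = j := by
      intro c j
      constructor
      · intro h
        rw [← h]
        exact hg c
      · intro h
        by_contra hne
        have h1 := hdis (g c) j hne
        rw [Finset.disjoint_left] at h1
        apply h1 (a := Fin.castAdd r c)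
        · rw [hA]
          simp only [Finset.mem_filter, Finset.mem_univ, true_and]
          rw [hE]
          simp only [Fin.append_left]
          exact hg c
        · rw [hA]
          simp only [Finset.mem_filter, Finset.mem_univ, true_and]
          rw [hE]
          simp only [Fin.append_left]
          exact h
    have hgB : Bal (K + 1) m g := by
      intro j
      refine Eq.trans ?_ (hBal (x j).1 (x j).2 j)
      congr 1
      ext c
      simp only [Finset.mem_filter, Finset.mem_univ, true_and]
      exact hun2 c j
    have hall := hDiag g hgB (fun j => (x j).1) (fun j => (x j).2) (fun j c => hun2 c j)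
    intro i j
    exact Subtype.ext ((hall i).trans (hall j).symm)
  · intro hx i j hij
    rw [Finset.disjoint_left]
    intro c hc hc'
    rw [hx j i] at hc'
    rw [hA] at hc hc'
    simp only [Finset.mem_filter, Finset.mem_univ, true_and] at hc hc'
    exact hij (hc.symm.trans hc')

end Pool.Agent.W370.MG
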